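import Pool.Agent.R573.TA.Main
import Pool.Agent.Y529.FJ.Ext
import Pool.Agent.Y961.FJ.Perm

/-!
# The Full Farrell–Jones Conjecture for groups acting on trees with commensurable stabilizers

`C` is any class of groups with the closure properties `ClosedE C` which contains the extensions of
abelian groups by cyclic groups; all this is known for the class of the groups that satisfy the Full
Farrell–Jones Conjecture.

Let `G` act without inversions on a tree such that the vertex stabilizers are commensurable with each
other (for graphs of groups: all edge groups have finite index in the vertex groups) and have no
nontrivial finite normal subgroups. Let `f : G → Q` be a homomorphism to a group in `C` such that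
every element of the kernel centralizes a subgroup of finite index of a stabilizer. Then the commutator
subgroup `N` of the kernel of `f` is free, and `G` is in `C`.

Neither the group nor the stabilizers have to be finitely generated, and nothing is assumed about the
membership of the stabilizers in `C`. Examples of `f`: the homomorphism from `G` to the abstract
commensurator of a stabilizer; if the stabilizers are finitely generated torsion-free nilpotent groups,
its values are automorphisms of their rational Malcev completion, which form a linear group over the
rational numbers; if the stabilizers are commensurable irreducible lattices in a connected semisimple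
Lie group without centre and compact factors, which is not `PSL_2(ℝ)`, the homomorphism goes to the
automorphism group of the Lie group and has a kernel with trivial centralizing subgroups.

Outline of the proof. Let `K` be the kernel of `f`. The intersections `K_v` of `K` with the
stabilizers consist of elements with finitely many conjugates, hence they are torsion-free (Dietzmann)
and abelian (Schur); they are commensurable with each other, so they have compatible, `K`-invariant
embeddings in one divisible group `E`. The obstruction to extending these to a homomorphism `K → E` is
a cocycle on the edges of the tree, which is the coboundary of a function on the vertices. So `K` has a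
homomorphism to an abelian group which is injective on all `K_v`, and the commutator subgroup `N` of
`K` acts freely on the tree. The quotient `G ⧸ N` is in `C` as an extension of an abelian group by a
subgroup of `Q`, and `G` embeds in a semidirect product `F(X) ⋊ (G ⧸ N)` where `G ⧸ N` permutes the
basis `X` of the free group.
-/

set_option autoImplicit false

namespace Pool.Agent.Results.MP_490288_al.CommensurableStabilizers

open Pool.Agent.Y110.FJ
open scoped commutatorElement

theorem result (C : ∀ (G : Type) [Group G], Prop) (hC : ClosedE C)
    (hab : ∀ (M : Type) [Group M] (A : Subgroup M) [A.Normal],
      (∀ x ∈ A, ∀ y ∈ A, x * y = y * x) → IsCyclic (M ⧸ A) → C M)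
    (G V Q : Type) [Group G] [Group Q] [MulAction G V] (T : SimpleGraph V) (hT : T.IsTree)
    (hadj : ∀ (g : G) (u v : V), T.Adj u v → T.Adj (g • u) (g • v))
    (hinv : ∀ (g : G) (u v : V), T.Adj u v → ¬ (g • u = v ∧ g • v = u))
    (hcom : ∀ u v : V, (MulAction.stabilizer G u).relIndex (MulAction.stabilizer G v) ≠ 0)
    (hfin : ∀ (v : V) (F : Subgroup ↥(MulAction.stabilizer G v)), F.Normal → Finite F → F = ⊥)
    (f : G →* Q) (hQ : C Q)
    (hf : ∀ g : G, f g = 1 →
      ∃ v : V, (Subgroup.centralizer ({g} : Set G)).relIndex (MulAction.stabilizer G v) ≠ 0) :
    IsFreeGroup ↥⁅f.ker, f.ker⁆ ∧ C G := by
  refine ⟨?_, Pool.Agent.R573.TA.main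
    (Pool.Agent.Y961.FJ.t_perm Pool.Agent.Y529.FJ.t_ext) Pool.Agent.Y529.FJ.t_ext C hC hab T hT
    hadj hinv hcom hfin f hQ hf⟩
  have h := Pool.Agent.R573.TA.commutator_free T hT hadj hinv hcom hfin f.ker (fun g hg => hf g hg)
  exact Pool.Agent.H40R2.Zd.free_of_tree (N := ↥⁅f.ker, f.ker⁆) T hT (fun γ u v => hadj γ u v)
    (fun γ v hv => Subtype.ext (h γ γ.2 v hv)) (fun γ u v => hinv γ u v)

end Pool.Agent.Results.MP_490288_al.CommensurableStabilizers
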