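import Pool.Agent.R472.GridFin

set_option autoImplicit false

/-! # Projective modules with two generators in each relation are induced from finite subgroups

Let `R` be any ring, generated by `T`, and `G` any group, generated by `S` (torsion is allowed). Every
finitely generated projective `RG`-module is presented by a square matrix whose rows (relations) and
columns (generators) are different points of the square grid, with entries zero except between
neighbouring points, nonzero entries `± s` or `± t`, and at most three of them in each row and in each
column. If there are at most two nonzero entries in each row and they are trivial units, a projective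
module is a direct sum of modules induced from finite subgroups, as the conjecture predicts for the
part of `K₀(RG)` without Nil-terms.

Outline of the second part. A relation `u x + v y = 0` with trivial units `u`, `v` eliminates a
generator and keeps the form of the relations. If all relations involve one generator only, the module
is a sum of cyclic modules `RG / I`, where `I` is generated by trivial units and sums `a + b` of two
trivial units, and `I` is the left annihilator of an idempotent `f` of `RG`. Let `f ≠ 0` and let `H` be
the group of all `k ∈ G` with `w k f = f` for some unit `w` of `R`. It is finite, since it permutes the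
support of `f`. Each generator of `I` is a trivial unit times an element of `RH`, and the restriction
`e` of `f` to `H` is an idempotent of `RH` with `I = RG (1 - e)`, since the restriction `RG → RH` is a
map of `RH`-bimodules. -/

namespace Pool.Agent.Results.MP_490288_al.FiniteInduction

open Matrix

section defs

variable {R : Type} [Ring R] {G : Type} [Group G]

/-- neighbouring points of the square grid -/
def Neighbours (a b : ℤ × ℤ) : Prop :=
  (a.1 = b.1 ∧ (a.2 = b.2 + 1 ∨ a.2 + 1 = b.2)) ∨ (a.2 = b.2 ∧ (a.1 = b.1 + 1 ∨ a.1 + 1 = b.1))

/-- the elements `± s` (`s = 1`, `s ∈ S` or `s⁻¹ ∈ S`) and `± t` (`t ∈ T`) of the group ring -/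
def Generator (S : Set G) (T : Set R) (x : MonoidAlgebra R G) : Prop :=
  (∃ s : G, (s = 1 ∨ s ∈ S ∨ s⁻¹ ∈ S) ∧
      (x = MonoidAlgebra.single s 1 ∨ x = MonoidAlgebra.single s (-1))) ∨
    ∃ t ∈ T, x = MonoidAlgebra.single 1 t ∨ x = MonoidAlgebra.single 1 (-t)

/-- A matrix which is supported on a finite piece of the square grid: its rows are at the points
`ρ i`, its columns at the points `c j`, all these points are different, the entry at `i j` is zero
unless `ρ i` and `c j` are neighbours; the nonzero entries are `± s` or `± t`; each row and each column
has at most three of them. -/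
def OnGrid (S : Set G) (T : Set R) {κ : Type} (B : Matrix κ κ (MonoidAlgebra R G)) : Prop :=
  ∃ ρ c : κ → ℤ × ℤ, Function.Injective ρ ∧ Function.Injective c ∧ (∀ i j, ρ i ≠ c j) ∧
    (∀ i j, B i j ≠ 0 → Neighbours (ρ i) (c j)) ∧
    (∀ i j, B i j = 0 ∨ Generator S T (B i j)) ∧
    (∀ i, {j | B i j ≠ 0}.ncard ≤ 3) ∧ (∀ j, {i | B i j ≠ 0}.ncard ≤ 3)

/-- all nonzero entries are trivial units `u g`, with `u` a unit of `R` and `g ∈ G` -/
def TrivialUnits {ι κ : Type} (B : Matrix ι κ (MonoidAlgebra R G)) : Prop :=
  ∀ i j, B i j = 0 ∨ ∃ (g : G) (u : Rˣ), B i j = MonoidAlgebra.single g (u : R)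

/-- the left module `P` is presented by the matrix `B`: one generator for each column, one relation
for each row -/
def PresentedBy {ι κ : Type} [Fintype ι] (B : Matrix ι κ (MonoidAlgebra R G)) (P : Type)
    [AddCommGroup P] [Module (MonoidAlgebra R G) P] : Prop :=
  Nonempty (P ≃ₗ[MonoidAlgebra R G]
    ((κ → MonoidAlgebra R G) ⧸ LinearMap.range B.vecMulLinear))

/-- `P` is the direct sum of modules `RG e = RG ⊗ RH e` with finite subgroups `H` of `G` and
idempotents `e` of `RH`: it is presented by the diagonal matrix with the entries `1 - e` -/
def SumOfFiniteInduced (R G : Type) [Ring R] [Group G] (P : Type) [AddCommGroup P]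
    [Module (MonoidAlgebra R G) P] : Prop :=
  ∃ (μ : Type) (_ : Fintype μ) (_ : DecidableEq μ) (e : μ → MonoidAlgebra R G)
    (H : μ → Subgroup G), (∀ j, Finite (H j)) ∧ (∀ j g, (e j).coeff g ≠ 0 → g ∈ H j) ∧
    (∀ j, e j * e j = e j) ∧ PresentedBy (diagonal fun j => 1 - e j) P

end defs

open TH57.Thr TH57.TT2 TH6.LF Pool.Agent.R719.DD Pool.Agent.R472.Grid in
/-- Let `R` be any ring, generated as a ring by `T`, and `G` any group, generated by `S`.

(1) Every finitely generated projective `RG`-module is presented by a square matrix supported on a
piece of the square grid, with entries `0`, `± s` and `± t`, and at most three nonzero ones in each row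
and column. (2) A projective `RG`-module which is presented by a finite matrix with entries `0` and
`u g` (`u` a unit of `R`, `g ∈ G`, no condition on the positions) with at most two nonzero entries in
each row is a direct sum of modules `RG e` with idempotents `e` of `RH`, for finite subgroups `H`. -/
theorem result (R : Type) [Ring R] (T : Set R) (hT : Subring.closure T = ⊤)
    (G : Type) [Group G] (S : Set G) (hS : Subgroup.closure S = ⊤) :
    (∀ (P : Type) [AddCommGroup P] [Module (MonoidAlgebra R G) P],
      Module.Finite (MonoidAlgebra R G) P → Module.Projective (MonoidAlgebra R G) P →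
      ∃ (κ : Type) (_ : Fintype κ) (B : Matrix κ κ (MonoidAlgebra R G)),
        OnGrid S T B ∧ PresentedBy B P) ∧
    (∀ (ι κ : Type) [Fintype ι] [Fintype κ] (B : Matrix ι κ (MonoidAlgebra R G)) (P : Type)
        [AddCommGroup P] [Module (MonoidAlgebra R G) P], Module.Projective (MonoidAlgebra R G) P →
        PresentedBy B P → TrivialUnits B → (∀ i, {j | B i j ≠ 0}.ncard ≤ 2) →
        SumOfFiniteInduced R G P) := by
  classical
  refine ⟨?_, ?_⟩
  · intro P _ _ hf hP
    obtain ⟨n, A, ⟨e⟩⟩ := exists_square P hf hP
    obtain ⟨ν, i1, i2, U, V, _, ρ, c, a1, a2, a3, a4, a5, a6, a7⟩ :=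
      grid_form (one_gensR S T) (neg_gensR S T) (genBy_top _ (closure_gensR S hS T hT)) A
    obtain ⟨e2⟩ := coker_stab A U V
    exact ⟨Fin n ⊕ ν, inferInstance, U.val * fromBlocks A 0 0 1 * V.val,
      ⟨ρ, c, a1, a2, a3, a4, a5, a6, a7⟩, ⟨e.trans e2⟩⟩
  · rintro ι κ _ _ B P _ _ hP ⟨e⟩ hB h
    exact fin_rows B h hB P hP e

end Pool.Agent.Results.MP_490288_al.FiniteInduction
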