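import Pool.Agent.R684.FP.Main

/-!
# Extensions whose kernel is a free product

`C` is any class of groups with the closure properties `ClosedE C` which contains the groups `F ⋊ Z` for
all free groups `F` and all automorphisms of `F`. All this is published for the class of groups which
satisfy the Full Farrell–Jones Conjecture.

Let `N` be a normal subgroup of `G` such that `G ⧸ N` is in `C`, and suppose that `N` is the free product of
subgroups `A i`, `i ∈ I`, where `I` is any set. Suppose that `A i` is a free group for `i` outside a subset
`S` of `I`, and that the conjugation by each element of `G` permutes the `N`-conjugacy classes of the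
subgroups `A i` with `i ∈ S`. If `A i ⟨g⟩` is in `C` for all `i ∈ S` and all `g` in `G` that normalize `A i`, then
`G` is in `C`.

The elements of `G` may conjugate the different factors by different elements of `N` and may map the
free factors to any complement; `G` need not preserve any splitting of `N`. By the subgroup theorem of
Kurosh the condition on the conjugacy classes holds for every extension `G` when the `A i`, `i ∈ S`, are
freely indecomposable and not infinite cyclic (for finitely generated `N` such a decomposition exists
by Grushko's theorem). So `C` is closed under extensions with kernels that are free products of free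
groups and of freely indecomposable groups all of whose mapping tori are in `C`, for instance one-ended
hyperbolic groups, virtually polycyclic groups and surface groups.

Outline of the proof.

* If a homomorphism `f` from a free product `*A i` to a group `Q` is injective on all factors, then its
  kernel is free: `*A i` embeds in `F(I × Q) ⋊ Q`, with `a ∈ A i` mapped to the conjugate of `f a` by the basis
  element `(i, 1)`, because reduced words are mapped to reduced words; the kernel lies in `F(I × Q)`.
* `C` is closed under extensions with free kernels.
* Let `M` be generated by subgroups `B p` such that no `B p` meets the normal closure in `M` of the others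
  (a regular product), let `K` be the intersection of these normal closures, let `M` be normal in `G` and
  let `G` permute the `M`-conjugacy classes of the `B p`. Then `M ⧸ K` is a restricted direct product whose
  factors are permuted by `G ⧸ K`, so that `G ⧸ K` is in `C` (with the theorem of R941), and then `G` is in
  `C` if all groups `K ⟨g⟩` are in `C`.
* This is applied to the normal closure `M` of the factors `A i` with `i ∈ S` and to the subgroups
  `B (i, f) = f (A i) f⁻¹`, where `f` is in the free product `F` of the other factors. The subgroup `K` is the
  kernel of the homomorphism from `N` to the wreath product of the product of the `A i`, `i ∈ S`, with `F`,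
  so it is free by the first step; and `N ⧸ M` is isomorphic to `F`.
-/

set_option autoImplicit false

namespace Pool.Agent.Results.MP_490288_al.FreeProductExtensions

open Pool.Agent.Y110.FJ Pool.Agent.R684.FP

theorem result (C : ∀ (G : Type) [Group G], Prop) (hC : ClosedE C)
    (hF : ∀ (X : Type) (α : MulAut (FreeGroup X)),
      C (FreeGroup X ⋊[zpowersHom (MulAut (FreeGroup X)) α] Multiplicative ℤ))
    (G : Type) [Group G] (N : Subgroup G) [N.Normal] (hQ : C (G ⧸ N))
    (I : Type) (A : I → Subgroup G) (S : Set I) (hA : IsFreeProd N A)
    (hfree : ∀ i, i ∉ S → IsFreeGroup (A i))
    (hperm : ∀ i ∈ S, ∀ g : G, ∃ j ∈ S, ∃ n ∈ N, ∀ x, x ∈ A i ↔ n * (g * x * g⁻¹) * n⁻¹ ∈ A j)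
    (hcyc : ∀ i ∈ S, ∀ g : G, (∀ x, x ∈ A i ↔ g * x * g⁻¹ ∈ A i) →
      C ↥(A i ⊔ Subgroup.zpowers g)) : C G :=
  main_all hC hF hQ A S hA hfree hperm hcyc

end Pool.Agent.Results.MP_490288_al.FreeProductExtensions
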