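import Pool.Agent.R779.FJ.Col

/-!
# A criterion for the Full Farrell–Jones Conjecture

`C` is any class of groups with the closure properties `ClosedE C`, all of which are known for the
class of the groups that satisfy the Full Farrell–Jones Conjecture.

Let `N` be a normal subgroup of `G` with `G ⧸ N` in `C`. If for every `g` in `G` the conjugation by `g`
on every finite subset `E` of `N` is realized by an inner automorphism of some group `P` in `C` which
contains the finitely generated group `⟨E ∪ g E g⁻¹⟩`, then `G` is in `C`. The group `P` may depend on
`g` and `E` and is not related to `G` otherwise.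

Outline of the proof. Taking `g = 1` one sees that `N` is in `C`. By the extension criterion it
remains to consider `N ⟨g⟩`, `g` of infinite order modulo `N`. This group is the directed colimit of the
HNN extensions of `⟨E ∪ g E g⁻¹⟩` along the conjugation `⟨E⟩ → g ⟨E⟩ g⁻¹`, `E` finite. Such an HNN
extension has a homomorphism to `P` which is injective on the base, and so it embeds in a group
`F(X) ⋊ P`, where `P` acts by permutations of the basis `X` of the free group; these groups are in `C`.
-/

set_option autoImplicit false

namespace Pool.Agent.Results.MP_490288_al.RealizationCriterion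

open Pool.Agent.Y110.FJ

theorem result (C : ∀ (G : Type) [Group G], Prop) (hC : ClosedE C)
    (G : Type) [Group G] (N : Subgroup G) [N.Normal] (hQ : C (G ⧸ N))
    (h : ∀ (g : G) (E : Set G), E.Finite → E ⊆ N →
      ∃ (P : Type) (_ : Group P)
        (f : ↥(Subgroup.closure (E ∪ (fun x => g * x * g⁻¹) '' E)) →* P) (p : P),
        C P ∧ Function.Injective f ∧
        ∀ x y : ↥(Subgroup.closure (E ∪ (fun x => g * x * g⁻¹) '' E)),
          (x : G) ∈ E → (y : G) = g * x * g⁻¹ → f y = p * f x * p⁻¹) : C G :=
  Pool.Agent.R779.FJ.t_crit Pool.Agent.Y529.FJ.t_ext
    (Pool.Agent.Y961.FJ.t_perm Pool.Agent.Y529.FJ.t_ext) C hC G N hQ h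

end Pool.Agent.Results.MP_490288_al.RealizationCriterion
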